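import Pool.Agent.H.MP_5be563_lc.C

namespace Pool.Agent.Results.MP_5be563_lc.Poly

open Pool.Agent.Lib.CX Pool.Agent.H.MP_5be563_lc

theorem result (t : ℕ) : ∃ f : Inst → Bool, PT f ∧ ∀ a : Inst, Free (completeBipartiteGraph (Fin 1) (Fin 3)) a.1.G →
    Free (SimpleGraph.pathGraph t) a.1.G → (∀ v, 0 < a.w v) → (VST a ↔ f a = true) :=
  ⟨ans (t + 2), PT.ans _, fun _ => ans_iff⟩

end Pool.Agent.Results.MP_5be563_lc.Poly
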